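import Pool.Agent.W_MP_486437_lc.Main

/-!
# MP_486437_lc: a negative answer for every countable model

For every countable model `M` of `PA` there is a strongly CP-generic set `X ⊆ M` such that no
proper elementary extension `(N, Y)` of `(M, X)` has `Y` strongly CP-generic in `N`: every
elementary embedding of `(M, X)` into such an `(N, Y)` is surjective. (The first conjunct records
that countable models of `PA` exist, so this refutes the statement asked about.)
-/

set_option autoImplicit false

namespace Pool.Agent.Results.MP_486437_lc.NoProperExtension

open FirstOrder FirstOrder.Language Pool.Agent.W_MP_486437_lc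

universe u v

theorem result :
    (∃ (M : Type) (_ : LPA.Structure M), Countable M ∧ M ⊨ PA) ∧
    ∀ (M : Type u) [LPA.Structure M] [Countable M], M ⊨ PA →
      ∃ X : Set M, StronglyCPGeneric X ∧
        ∀ (N : Type v) [LPA.Structure N] (Y : Set N), StronglyCPGeneric Y →
          ∀ j : Expansion X ↪ₑ[LPAU] Expansion Y, Function.Surjective j :=
  ⟨⟨ℕ, natStructure, inferInstance, nat_models_PA⟩, fun M _ _ h => main M h⟩

end Pool.Agent.Results.MP_486437_lc.NoProperExtension
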